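import Mathlib
import Pool.Agent.N990.PT.Stm

/-!
# Project PT (helper990), part TOP: the law of the ends

Adapted from `Pool/Agent/N222/RT/TOP.lean` (helper222).
-/

set_option autoImplicit false

open MeasureTheory
open Pool.Agent.N988.EA
open Pool.Agent.N990.PT

namespace Pool.Agent.N950.PT

theorem ends_repl (h2 : S_GEO) {b q : ℕ} (p : ℕ → Fin b × Bool) (n : ℕ) (ω : VInf p → Fin q)
    (s : Vert b (n + 1) → Fin q) :
    ends p n (repl p (n + 1) ω s) =
      fun t => if t = (p n).2 then ends p (n + 1) ω t else s (Sum.inl (p n).1 : Vert b (n + 1)) := by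
  obtain ⟨_, hinc, hinj, _, hrepl, _⟩ := h2 b q p
  funext t
  unfold ends
  rw [← hinc n (.inl t)]
  obtain ⟨hr1, hr2⟩ := hrepl (n + 1) ω s
  by_cases ht : t = (p n).2
  · have e : emb (p n).1 (p n).2 (.inl t) = (.inl (p n).2 : Pt b (n + 1)) := if_pos ht
    rw [e, if_pos ht, ht]
    exact hr2 _ fun x hx => by
      have := hinj (n + 1) hx
      exact absurd this (by simp)
  · have e : emb (p n).1 (p n).2 (.inl t) = (.inr (.inl (p n).1) : Pt b (n + 1)) := if_neg ht
    rw [e, if_neg ht]
    exact hr1 _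

theorem t_top (h1 : Pool.Agent.N990.PT.S_GEO) (h2 : Pool.Agent.N990.PT.S_MID) :
    Pool.Agent.N990.PT.S_TOP := by
  intro b q hq β p μ hμ n f
  have hm : Measurable (ends (q := q) p n) :=
    measurable_pi_lambda _ fun t => measurable_pi_apply _
  have hf : Measurable f := measurable_of_countable f
  have hC : ∀ τ : Bool → Fin q, |f τ| ≤ ∑ τ, |f τ| := fun τ =>
    Finset.single_le_sum (f := fun τ => |f τ|) (fun _ _ => abs_nonneg _) (Finset.mem_univ τ)
  have h := hμ.dlr (n + 1) (fun ω => f (ends p n ω)) (hf.comp hm) ⟨_, fun ω => hC _⟩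
  rw [h]
  refine integral_congr_ae (Filter.Eventually.of_forall fun ω => ?_)
  simp only [ends_repl h1]
  exact h2 b q hq β n (p n).1 (ends p (n + 1) ω)
    (fun c => f (fun t => if t = (p n).2 then ends p (n + 1) ω t else c))

end Pool.Agent.N950.PT
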